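import Mathlib

namespace Pool.Agent.Results.MP_44775e_co.Counter

open SimpleGraph

/-- number of parts: ceiling of n / k -/
noncomputable def parts (V : Type) [Fintype V] (k : ℕ) : ℕ := ⌈(Fintype.card V : ℚ) / k⌉₊

/-- cliques on the fibres of P -/
def cliques {W I : Type} (P : W → I) : SimpleGraph W where
  Adj x y := x ≠ y ∧ P x = P y
  symm := ⟨fun _ _ h => ⟨h.1.symm, h.2.symm⟩⟩
  loopless := ⟨fun _ h => h.1 rfl⟩

/-- after padding with isolated vertices, for every partition into parts of size k the graph with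
all parts turned into cliques is k-colourable -/
def StronglyColourable {V : Type} [Fintype V] (G : SimpleGraph V) (k : ℕ) : Prop :=
  ∀ P : V ⊕ Fin (k * parts V k - Fintype.card V) → Fin (parts V k),
    (∀ j, {w | P w = j}.ncard = k) →
      ((G ⊕g (⊥ : SimpleGraph (Fin (k * parts V k - Fintype.card V)))) ⊔ cliques P).Colorable k

abbrev VV (t : ℕ) := Option (Fin 4) × Fin 4 × Fin (4 * t)

def R {t : ℕ} (u v : VV t) : Prop := u.1 = v.1 ∧ v.2.1 = u.2.1 + 1 ∧ v.2.2 ≤ u.2.2

def G (t : ℕ) : SimpleGraph (VV t) where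
  Adj u v := R u v ∨ R v u
  symm := ⟨fun _ _ h => h.symm⟩
  loopless := ⟨fun u h => by
    have : ∀ q : Fin 4, q ≠ q + 1 := by decide
    rcases h with h | h <;> exact this _ h.2.1⟩

lemma noIT (t : ℕ) (i : Option (Fin 4)) (x : Fin 4 → Fin (4 * t)) :
    ¬ ∀ q q' : Fin 4, ¬ (G t).Adj (i, q, x q) (i, q', x q') := by
  intro h
  have key : ∀ q, x q < x (q + 1) := by
    intro q
    by_contra hh
    exact h q (q + 1) (Or.inl ⟨rfl, rfl, not_lt.1 hh⟩)
  have h0 := key 0
  have h1 := key 1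
  have h2 := key 2
  have h3 := key 3
  exact absurd (h0.trans (h1.trans (h2.trans h3))) (lt_irrefl _)

def blk (t : ℕ) (i j : Fin 4) (z : Fin (5 * t)) : VV t :=
  if h : z.val < 4 * t then (some i, j, ⟨z.val, h⟩)
  else (none, i, ⟨j.val * t + (z.val - 4 * t), by
    have := z.2
    have := j.2
    have : j.val * t ≤ 3 * t := Nat.mul_le_mul_right t (by omega)
    omega⟩)

lemma blk_inj (t : ℕ) : Function.Injective
    (fun p : (Fin 4 × Fin 4) × Fin (5 * t) => blk t p.1.1 p.1.2 p.2) := by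
  rintro ⟨⟨i, j⟩, z⟩ ⟨⟨i', j'⟩, z'⟩ h
  simp only [blk] at h
  have hz := z.2
  have hz' := z'.2
  split_ifs at h with h1 h2 h2
  · simp only [Prod.mk.injEq, Option.some.injEq, Fin.mk.injEq] at h
    obtain ⟨rfl, rfl, h3⟩ := h
    rw [Fin.ext h3]
  · simp at h
  · simp at h
  · simp only [Prod.mk.injEq, Fin.mk.injEq, true_and] at h
    obtain ⟨rfl, h3⟩ := h
    have : j = j' := by
      apply Fin.ext
      by_contra hne
      rcases Nat.lt_or_gt_of_ne hne with h4 | h4
      · have := Nat.mul_le_mul_right t (Nat.succ_le_of_lt h4)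
        rw [Nat.succ_mul] at this
        omega
      · have := Nat.mul_le_mul_right t (Nat.succ_le_of_lt h4)
        rw [Nat.succ_mul] at this
        omega
    subst this
    have : z = z' := Fin.ext (by omega)
    rw [this]

lemma noIT2 (t : ℕ) (z : Fin 4 → Fin 4 → Fin (5 * t)) :
    ¬ ∀ i j i' j', ¬ (G t).Adj (blk t i j (z i j)) (blk t i' j' (z i' j')) := by
  intro h
  have : ∀ i, ∃ j, ¬ (z i j).val < 4 * t := by
    intro i
    by_contra hh
    push Not at hh
    refine noIT t (some i) (fun q => ⟨(z i q).val, hh q⟩) (fun q q' => ?_)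
    have := h i q i q'
    simpa only [blk, dif_pos (hh q), dif_pos (hh q')] using this
  choose j hj using this
  refine noIT t none (fun q => (blk t q (j q) (z q (j q))).2.2) (fun q q' => ?_)
  have := h q (j q) q' (j q')
  simpa only [blk, dif_neg (hj q), dif_neg (hj q')] using this

lemma not_strong (t k : ℕ) (hk : 1 ≤ k) (hkt : k ≤ 5 * t) : ¬ StronglyColourable (G t) k := by
  classical
  intro h
  have hn : Fintype.card (VV t) = 80 * t := by simp; ring
  have h1 : Fintype.card (VV t) ≤ k * parts (VV t) k := by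
    have := Nat.le_ceil ((Fintype.card (VV t) : ℚ) / k)
    rw [div_le_iff₀ (by exact_mod_cast hk)] at this
    rw [mul_comm k]
    exact_mod_cast this
  have h2 : 16 ≤ parts (VV t) k := by
    by_contra hh
    have : k * parts (VV t) k ≤ (5 * t) * 15 := Nat.mul_le_mul hkt (by omega)
    omega
  unfold StronglyColourable at h
  generalize parts (VV t) k = M at *
  have hc : Fintype.card (Fin M × Fin k) =
      Fintype.card (VV t ⊕ Fin (k * M - Fintype.card (VV t))) := by
    rw [Fintype.card_sum, Fintype.card_prod, Fintype.card_fin, Fintype.card_fin, Fintype.card_fin,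
      mul_comm]
    omega
  let e0 := Fintype.equivOfCardEq hc
  let f : (Fin 4 × Fin 4) × Fin k → VV t ⊕ Fin (k * M - Fintype.card (VV t)) :=
    fun p => Sum.inl (blk t p.1.1 p.1.2 (Fin.castLE hkt p.2))
  let g : (Fin 4 × Fin 4) × Fin k → Fin M × Fin k :=
    fun p => (Fin.castLE h2 (finProdFinEquiv p.1), p.2)
  have hf : Function.Injective f := by
    rintro ⟨a, x⟩ ⟨b, y⟩ hh
    have := @blk_inj t (a, Fin.castLE hkt x) (b, Fin.castLE hkt y) (Sum.inl_injective hh)
    simp only [Prod.mk.injEq] at this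
    exact Prod.ext this.1 (Fin.castLE_injective _ this.2)
  have hg : Function.Injective g := by
    rintro ⟨a, x⟩ ⟨b, y⟩ hh
    simp only [g, Prod.mk.injEq] at hh
    exact Prod.ext (finProdFinEquiv.injective (Fin.castLE_injective _ hh.1)) hh.2
  obtain ⟨σ, hσ⟩ := Equiv.Perm.exists_extending_pair _ _ (e0.injective.comp hg) hf
  let e := e0.trans σ
  have he : ∀ p, e (g p) = f p := hσ
  obtain ⟨c⟩ := h (fun w => (e.symm w).1) (by
    intro j
    have : {w | (e.symm w).1 = j} = Set.range (fun x : Fin k => e (j, x)) := by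
      ext w
      constructor
      · intro hw
        exact ⟨(e.symm w).2, by rw [← hw]; simp⟩
      · rintro ⟨x, rfl⟩
        simp
    rw [this, ← Set.image_univ, Set.ncard_image_of_injective _
      (fun a b hab => (Prod.ext_iff.1 (e.injective hab)).2)]
    simp)
  have sj : ∀ a : Fin 4 × Fin 4, ∃ x : Fin k, c (f (a, x)) = ⟨0, hk⟩ := by
    intro a
    refine (Finite.injective_iff_surjective (f := fun x : Fin k => c (f (a, x)))).1 ?_ _
    intro x y hxy
    by_contra hne
    refine c.valid (Or.inr ⟨fun hh => hne (Prod.ext_iff.1 (hf hh)).2, ?_⟩) hxy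
    simp only [← he, Equiv.symm_apply_apply, g]
  choose x hx using sj
  refine noIT2 t (fun i j => Fin.castLE hkt (x (i, j))) (fun i j i' j' ha => ?_)
  exact c.valid (v := f ((i, j), x (i, j))) (w := f ((i', j'), x (i', j'))) (Or.inl ha)
    ((hx _).trans (hx _).symm)

lemma card_le (t : ℕ) (X Y : Set (VV t)) (hX : X.Nonempty) (hY : Y.Nonempty)
    (h : ∀ u ∈ X, ∀ v ∈ Y, (G t).Adj u v) :
    ∃ φ : VV t → ℕ, (∀ u, φ u < 4 * t + 3) ∧ Set.InjOn φ (X ∪ Y) := by
  obtain ⟨u0, hu0⟩ := hX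
  obtain ⟨v0, hv0⟩ := hY
  have a1 : ∀ u v : VV t, (G t).Adj u v → u.1 = v.1 ∧ (u.2.1.val + v.2.1.val) % 2 = 1 := by
    have : ∀ q : Fin 4, (q.val + (q + 1).val) % 2 = 1 := by decide
    rintro u v (⟨a, b, -⟩ | ⟨a, b, -⟩)
    · exact ⟨a, b ▸ this _⟩
    · exact ⟨a.symm, by rw [b, add_comm]; exact this _⟩
  have a2 : ∀ u ∈ X ∪ Y, u.1 = u0.1 := by
    rintro u (hu | hu)
    · exact (a1 _ _ (h u hu v0 hv0)).1.trans (a1 _ _ (h u0 hu0 v0 hv0)).1.symm
    · exact (a1 _ _ (h u0 hu0 u hu)).1.symm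
  have a3 : ∀ u ∈ X ∪ Y, ∀ v ∈ X ∪ Y, v.2.1 = u.2.1 + 1 → v.2.2 ≤ u.2.2 := by
    have p1 : ∀ q : Fin 4, (q.val + (q + 1).val) % 2 = 1 := by decide
    have p2 : ∀ q : Fin 4, q ≠ q + 1 + 1 := by decide
    have b : ∀ u v : VV t, (G t).Adj u v → v.2.1 = u.2.1 + 1 → v.2.2 ≤ u.2.2 := by
      rintro u v (⟨_, _, c⟩ | ⟨_, b, _⟩) hh
      · exact c
      · rw [hh] at b
        exact absurd b (p2 _)
    rintro u (hu | hu) v (hv | hv) hh
    · have e1 := (a1 _ _ (h u hu v0 hv0)).2
      have e2 := (a1 _ _ (h v hv v0 hv0)).2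
      have := p1 u.2.1
      rw [← hh] at this
      omega
    · exact b u v (h u hu v hv) hh
    · exact b u v (h v hv u hu).symm hh
    · have e1 := (a1 _ _ (h u0 hu0 u hu)).2
      have e2 := (a1 _ _ (h u0 hu0 v hv)).2
      have := p1 u.2.1
      rw [← hh] at this
      omega
  have a4 : ∃ c : Fin 4 → Fin 4, ∀ u ∈ X ∪ Y, ∀ v ∈ X ∪ Y, u.2.1 ≠ v.2.1 →
      u.2.2.val + (c u.2.1).val ≠ v.2.2.val + (c v.2.1).val := by
    by_cases hall : ∀ q : Fin 4, ∃ w ∈ X ∪ Y, w.2.1 = q
    · refine ⟨id, fun u hu v hv hne => ?_⟩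
      have s : ∀ u ∈ X ∪ Y, ∀ v ∈ X ∪ Y, v.2.2 ≤ u.2.2 := by
        intro u hu v hv
        obtain ⟨w1, b1, c1⟩ := hall (u.2.1 + 1)
        obtain ⟨w2, b2, c2⟩ := hall (u.2.1 + 1 + 1)
        obtain ⟨w3, b3, c3⟩ := hall (u.2.1 + 1 + 1 + 1)
        have d1 := a3 u hu w1 b1 c1
        have d2 := (a3 w1 b1 w2 b2 (by rw [c1, c2])).trans d1
        have d3 := (a3 w2 b2 w3 b3 (by rw [c2, c3])).trans d2
        have : ∀ p q : Fin 4, q = p + 1 ∨ q = p + 1 + 1 ∨ q = p + 1 + 1 + 1 ∨
          q = p + 1 + 1 + 1 + 1 := by decide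
        rcases this u.2.1 v.2.1 with e | e | e | e
        · exact a3 u hu v hv e
        · exact (a3 w1 b1 v hv (by rw [c1, e])).trans d1
        · exact (a3 w2 b2 v hv (by rw [c2, e])).trans d2
        · exact (a3 w3 b3 v hv (by rw [c3, e])).trans d3
      have := le_antisymm (s u hu v hv) (s v hv u hu)
      rw [this]
      intro hh
      exact hne (Fin.ext (by simpa using hh))
    · push Not at hall
      obtain ⟨r, hr⟩ := hall
      have hw : ∃ w ∈ X ∪ Y, w.2.1 = r + 2 := by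
        have e := (a1 _ _ (h u0 hu0 v0 hv0)).2
        have n1 := hr u0 (Or.inl hu0)
        have n2 := hr v0 (Or.inr hv0)
        have : ∀ p q r : Fin 4, (p.val + q.val) % 2 = 1 → p ≠ r → q ≠ r →
          p = r + 2 ∨ q = r + 2 := by decide
        rcases this _ _ _ e n1 n2 with e | e
        · exact ⟨u0, Or.inl hu0, e⟩
        · exact ⟨v0, Or.inr hv0, e⟩
      obtain ⟨w, hw, hw2⟩ := hw
      refine ⟨fun q => r - q, ?_⟩
      have s : ∀ u ∈ X ∪ Y, ∀ v ∈ X ∪ Y, (r - v.2.1).val < (r - u.2.1).val → v.2.2 ≤ u.2.2 := by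
        intro u hu v hv hh
        have : ∀ p q r : Fin 4, p ≠ r → q ≠ r → (r - q).val < (r - p).val →
          q = p + 1 ∨ (r + 2 = p + 1 ∧ q = r + 2 + 1) := by decide
        rcases this _ _ _ (hr u hu) (hr v hv) hh with e | e
        · exact a3 u hu v hv e
        · exact (a3 w hw v hv (by rw [hw2, e.2])).trans (a3 u hu w hw (by rw [hw2, e.1]))
      intro u hu v hv hne
      have : (r - u.2.1).val ≠ (r - v.2.1).val := by
        intro hh
        exact hne (sub_right_injective (Fin.ext hh))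
      rcases Nat.lt_or_gt_of_ne this with e | e
      · have := s v hv u hu e
        rw [Fin.le_def] at this
        simp only
        omega
      · have := s u hu v hv e
        rw [Fin.le_def] at this
        simp only
        omega
  obtain ⟨c, hc⟩ := a4
  refine ⟨fun u => u.2.2.val + (c u.2.1).val, fun u => ?_, fun u hu v hv huv => ?_⟩
  · have := u.2.2.2
    have := (c u.2.1).2
    simp only
    omega
  · have e : u.2.1 = v.2.1 := by
      by_contra hne
      exact hc u hu v hv hne huv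
    refine Prod.ext ((a2 u hu).trans (a2 v hv).symm) (Prod.ext e (Fin.ext ?_))
    simp only [e] at huv
    omega

theorem result (t : ℕ) : ∃ (V : Type) (_ : Fintype V) (G : SimpleGraph V),
    (∀ a b : ℕ, 1 ≤ a → 1 ≤ b → completeBipartiteGraph (Fin a) (Fin b) ⊑ G →
      a + b ≤ 4 * t + 3) ∧
    ∀ k, 1 ≤ k → k ≤ 5 * t → ¬ StronglyColourable G k := by
  refine ⟨VV t, inferInstance, G t, ?_, fun k h1 h2 => not_strong t k h1 h2⟩
  rintro a b ha hb ⟨f⟩
  obtain ⟨φ, h1, h2⟩ := card_le t (Set.range (fun x => f (Sum.inl x)))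
    (Set.range (fun y => f (Sum.inr y))) ⟨_, ⟨0, ha⟩, rfl⟩ ⟨_, ⟨0, hb⟩, rfl⟩ (by
      rintro _ ⟨x, rfl⟩ _ ⟨y, rfl⟩
      exact f.toHom.map_adj (by simp))
  have := Fintype.card_le_of_injective
    (fun x : Fin a ⊕ Fin b => (⟨φ (f x), h1 _⟩ : Fin (4 * t + 3))) (by
      intro x y hxy
      have m : ∀ x : Fin a ⊕ Fin b, f x ∈ Set.range (fun x => f (Sum.inl x)) ∪
          Set.range (fun y => f (Sum.inr y)) := by
        rintro (x | x)
        · exact Or.inl ⟨x, rfl⟩
        · exact Or.inr ⟨x, rfl⟩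
      exact f.injective (h2 (m x) (m y) (by simpa using hxy)))
  simpa using this

end Pool.Agent.Results.MP_44775e_co.Counter
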